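import Pool.Agent.VM.StmtsW

/-!
# Module EN2 of squad VMV: the pairs `(d, ρ)`
-/

set_option autoImplicit false

namespace Pool.Agent.VM.H47

open scoped Classical in
theorem en2 (k c₀ : ℕ) (hk : 3 ≤ k) (_hc : 1 ≤ c₀) (num : NumP k c₀) (cnt : CntStmt) (pdv : PdvStmt) :
    En2Stmt k c₀ := by
  obtain ⟨q₀, hq₀⟩ := num 2
  refine ⟨(8 * (k : ℝ) + 1) + ((k : ℝ) + 2) * (48 * (k : ℝ)), max q₀ 1, by positivity, ?_⟩
  intro q D K t b u hq hD hK hu1 huQ hqu hg ht S hS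
  obtain ⟨hDB, hK1, -, -, h4DK, h2DK, -, -, h4q, -, -, hX, -, -, -⟩ :=
    hq₀ q D K (le_trans (le_max_left _ _) hq) hD hK
  have hq1 : 1 ≤ q := le_trans (le_max_right _ _) hq
  have hDq : D ≤ q := by nlinarith
  have hk1 : k - 1 ≠ 0 := by omega
  set Q : ℕ := K ^ (k - 1) / 2 with hQdef
  set X : ℕ := 2 * k * q * (2 * D) ^ (k - 1) with hXdef
  have hKpos : 0 < K ^ (k - 1) := by positivity
  have hKR : (0 : ℝ) < (K : ℝ) ^ (k - 1) := by exact_mod_cast hKpos
  have hQ2 : 2 * Q ≤ K ^ (k - 1) := by omega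
  have hQ4 : K ^ (k - 1) ≤ 4 * Q := by omega
  -- the function `m`
  let f : ℕ × ℤ → ℤ := fun v => (k : ℤ) * (v.1 : ℤ) ^ (k - 1) * v.2
  let T : Finset (ℕ × ℤ) := (S ×ˢ Finset.Icc (-(2 * (q : ℤ))) (2 * (q : ℤ))).filter
    (fun v => v.2 ≠ 0 ∧ Nr ((k : ℝ) * t * (v.1 : ℝ) ^ (k - 1) * (v.2 : ℝ)) (1 / (K : ℝ) ^ (k - 1)))
  have hT : ∀ v : ℕ × ℤ, v ∈ T ↔ (v.1 ∈ S ∧ v.2 ≠ 0 ∧ |v.2| ≤ 2 * (q : ℤ) ∧
      Nr ((k : ℝ) * t * (v.1 : ℝ) ^ (k - 1) * (v.2 : ℝ)) (1 / (K : ℝ) ^ (k - 1))) := by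
    intro v
    simp only [T, Finset.mem_filter, Finset.mem_product, Finset.mem_Icc, abs_le]
    tauto
  rw [Nat.subtype_card T hT]
  have hf0 : ∀ v ∈ T, f v ≠ 0 := by
    intro v hv
    have h := (hT v).1 hv
    have hd := hS v.1 h.1
    have h1 : (v.1 : ℤ) ≠ 0 := by
      have := hd.2.2.1.pos
      positivity
    have h2 : (k : ℤ) ≠ 0 := by positivity
    exact mul_ne_zero (mul_ne_zero h2 (pow_ne_zero _ h1)) h.2.1
  have hfX : ∀ v ∈ T, |f v| ≤ (X : ℤ) := by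
    intro v hv
    have h := (hT v).1 hv
    have hd := hS v.1 h.1
    have h1 : |f v| = (k : ℤ) * (v.1 : ℤ) ^ (k - 1) * |v.2| := by
      simp only [f]
      rw [abs_mul, abs_of_nonneg (by positivity)]
    rw [h1, hXdef]
    push_cast
    have h2 : (v.1 : ℤ) ^ (k - 1) ≤ (2 * (D : ℤ)) ^ (k - 1) := by
      apply pow_le_pow_left₀ (by positivity)
      exact_mod_cast hd.2.1
    calc (k : ℤ) * (v.1 : ℤ) ^ (k - 1) * |v.2|
        ≤ (k : ℤ) * (2 * (D : ℤ)) ^ (k - 1) * (2 * (q : ℤ)) := by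
          apply mul_le_mul (mul_le_mul_of_nonneg_left h2 (by positivity)) h.2.2.1
            (abs_nonneg _) (by positivity)
      _ = 2 * (k : ℤ) * (q : ℤ) * (2 * (D : ℤ)) ^ (k - 1) := by ring
  have hsplit : (T.filter (fun v => (u : ℤ) ∣ f v)).card +
      (T.filter (fun v => ¬ (u : ℤ) ∣ f v)).card = T.card :=
    Finset.card_filter_add_card_filter_not _
  -- case A
  have hA : (T.filter (fun v => (u : ℤ) ∣ f v)).card ≤ D * (8 * k + 1) := by
    have hcard : ((Finset.Ioc D (2 * D)) ×ˢ (Finset.Icc (-(4 * (k : ℤ))) (4 * (k : ℤ)))).card =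
        D * (8 * k + 1) := by
      rw [Finset.card_product, Nat.card_Ioc, Int.card_Icc]
      congr 1
      · omega
      · omega
    rw [← hcard]
    refine Finset.card_le_card_of_injOn (fun v => (v.1, (k : ℤ) * v.2 / (u : ℤ))) ?_ ?_
    · intro v hv
      have hv' := Finset.mem_filter.1 (Finset.mem_coe.1 hv)
      have h := (hT v).1 hv'.1
      have hd := hS v.1 h.1
      have hdvd : (u : ℤ) ∣ (k : ℤ) * v.2 := by
        have h3 : IsCoprime (u : ℤ) ((v.1 : ℤ) ^ (k - 1)) := by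
          apply IsCoprime.pow_right
          rw [Nat.isCoprime_iff_coprime]
          exact ((Nat.Prime.coprime_iff_not_dvd hd.2.2.1).2 hd.2.2.2).symm
        apply h3.dvd_of_dvd_mul_left
        have h4 := hv'.2
        simp only [f] at h4
        have h5 : (v.1 : ℤ) ^ (k - 1) * ((k : ℤ) * v.2) = (k : ℤ) * (v.1 : ℤ) ^ (k - 1) * v.2 := by
          ring
        rw [h5]
        exact h4
      obtain ⟨j, hj⟩ := hdvd
      have hu0 : (0 : ℤ) < u := by exact_mod_cast hu1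
      have hjj : (k : ℤ) * v.2 / (u : ℤ) = j := by
        rw [hj]
        exact Int.mul_ediv_cancel_left _ hu0.ne'
      have hab : (u : ℤ) * |j| ≤ (u : ℤ) * (4 * (k : ℤ)) := by
        have h6 : (u : ℤ) * |j| = (k : ℤ) * |v.2| := by
          have h61 : |(u : ℤ) * j| = (u : ℤ) * |j| := by rw [abs_mul, abs_of_nonneg hu0.le]
          have h62 : |(k : ℤ) * v.2| = (k : ℤ) * |v.2| := by
            rw [abs_mul, abs_of_nonneg (by positivity : (0 : ℤ) ≤ (k : ℤ))]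
          rw [← h61, ← hj, h62]
        rw [h6]
        have h7 : (k : ℤ) * |v.2| ≤ (k : ℤ) * (2 * (q : ℤ)) :=
          mul_le_mul_of_nonneg_left h.2.2.1 (by positivity)
        have h8 : (q : ℤ) ≤ 2 * u := by exact_mod_cast hqu
        have h9 : (0 : ℤ) ≤ k := by positivity
        nlinarith
      have hj4 : |j| ≤ 4 * (k : ℤ) := le_of_mul_le_mul_left hab hu0
      simp only [Finset.coe_product, Set.mem_prod, Finset.mem_coe, Finset.mem_Ioc, Finset.mem_Icc]
      refine ⟨⟨hd.1, hd.2.1⟩, ?_⟩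
      rw [hjj]
      exact abs_le.1 hj4
    · intro v hv w hw hvw
      have hv' := Finset.mem_filter.1 (Finset.mem_coe.1 hv)
      have hw' := Finset.mem_filter.1 (Finset.mem_coe.1 hw)
      have key : ∀ x : ℕ × ℤ, x ∈ T.filter (fun v => (u : ℤ) ∣ f v) → (u : ℤ) ∣ (k : ℤ) * x.2 := by
        intro x hx
        have hx' := Finset.mem_filter.1 hx
        have h := (hT x).1 hx'.1
        have hd := hS x.1 h.1
        have h3 : IsCoprime (u : ℤ) ((x.1 : ℤ) ^ (k - 1)) := by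
          apply IsCoprime.pow_right
          rw [Nat.isCoprime_iff_coprime]
          exact ((Nat.Prime.coprime_iff_not_dvd hd.2.2.1).2 hd.2.2.2).symm
        apply h3.dvd_of_dvd_mul_left
        have h4 := hx'.2
        simp only [f] at h4
        have h5 : (x.1 : ℤ) ^ (k - 1) * ((k : ℤ) * x.2) = (k : ℤ) * (x.1 : ℤ) ^ (k - 1) * x.2 := by
          ring
        rw [h5]
        exact h4
      have h1 := Int.ediv_mul_cancel (key v (Finset.mem_coe.1 hv))
      have h2 := Int.ediv_mul_cancel (key w (Finset.mem_coe.1 hw))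
      simp only [Prod.mk.injEq] at hvw
      rw [hvw.2, h2] at h1
      have hk0 : (k : ℤ) ≠ 0 := by positivity
      have h3 : w.2 = v.2 := mul_left_cancel₀ hk0 h1
      exact Prod.ext hvw.1 h3.symm
  -- case B
  let M : Finset ℤ := (Finset.Icc (-(X : ℤ)) (X : ℤ)).filter
    (fun m => ¬ (u : ℤ) ∣ m ∧ Nr (t * (m : ℝ)) (1 / (K : ℝ) ^ (k - 1)))
  have hM : ∀ m : ℤ, m ∈ M ↔ (|m| ≤ (X : ℤ) ∧ ¬ (u : ℤ) ∣ m ∧
      Nr (t * (m : ℝ)) (1 / (K : ℝ) ^ (k - 1))) := by
    intro m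
    simp only [M, Finset.mem_filter, Finset.mem_Icc, abs_le]
  have hMc : (M.card : ℝ) ≤ 48 * (k : ℝ) * (q : ℝ) := by
    have h1 := cnt t (1 / (K : ℝ) ^ (k - 1)) b u Q X hu1 huQ hg ht (by positivity) (by
      rw [div_mul_eq_mul_div, one_mul, div_le_iff₀ hKR]
      have h2 : (2 : ℝ) * (u : ℝ) ≤ (K : ℝ) ^ (k - 1) := by
        exact_mod_cast (le_trans (Nat.mul_le_mul_left 2 huQ) hQ2)
      linarith)
    rw [Nat.subtype_card M hM] at h1
    refine h1.trans ?_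
    have hXK : (X : ℝ) ≤ 2 * (k : ℝ) * (q : ℝ) * (K : ℝ) ^ (k - 1) := by
      rw [hXdef]
      push_cast
      apply mul_le_mul_of_nonneg_left _ (by positivity)
      apply pow_le_pow_left₀ (by positivity)
      exact_mod_cast h2DK
    have hQpos : 0 < Q := by omega
    have hQR : (0 : ℝ) < (Q : ℝ) := by exact_mod_cast hQpos
    have hKQ : (K : ℝ) ^ (k - 1) ≤ 4 * (Q : ℝ) := by exact_mod_cast hQ4
    have h3 : 4 * (X : ℝ) / (Q : ℝ) ≤ 32 * (k : ℝ) * (q : ℝ) := by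
      rw [div_le_iff₀ hQR]
      calc 4 * (X : ℝ) ≤ 4 * (2 * (k : ℝ) * (q : ℝ) * (K : ℝ) ^ (k - 1)) := by linarith
        _ = 8 * (k : ℝ) * (q : ℝ) * (K : ℝ) ^ (k - 1) := by ring
        _ ≤ 8 * (k : ℝ) * (q : ℝ) * (4 * (Q : ℝ)) :=
            mul_le_mul_of_nonneg_left hKQ (by positivity)
        _ = 32 * (k : ℝ) * (q : ℝ) * (Q : ℝ) := by ring
    have h4 : 8 * (1 / (K : ℝ) ^ (k - 1)) * (X : ℝ) ≤ 16 * (k : ℝ) * (q : ℝ) := by
      have h5 : 8 * (1 / (K : ℝ) ^ (k - 1)) * (X : ℝ) = 8 * (X : ℝ) / (K : ℝ) ^ (k - 1) := by ring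
      rw [h5, div_le_iff₀ hKR]
      linarith
    linarith
  have hB : (T.filter (fun v => ¬ (u : ℤ) ∣ f v)).card ≤ (k + 2) * M.card := by
    refine Finset.card_le_mul_card_image_of_maps_to (f := f) ?_ (k + 2) ?_
    · intro v hv
      have hv' := Finset.mem_filter.1 hv
      have h := (hT v).1 hv'.1
      refine (hM _).2 ⟨hfX v hv'.1, hv'.2, ?_⟩
      have h1 : t * ((f v : ℤ) : ℝ) = (k : ℝ) * t * (v.1 : ℝ) ^ (k - 1) * (v.2 : ℝ) := by
        simp only [f]
        push_cast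
        ring
      rw [h1]
      exact h.2.2.2
    · intro m hm
      have hm' := (hM m).1 hm
      rcases eq_or_ne m 0 with rfl | hm0
      · exact absurd (dvd_zero _) hm'.2.1
      have hmlt : m.natAbs < D ^ (k + 2) := by
        have h1 : (m.natAbs : ℤ) ≤ (X : ℤ) := by
          rw [Int.natCast_natAbs]
          exact hm'.1
        have h2 : m.natAbs ≤ X := by exact_mod_cast h1
        exact lt_of_le_of_lt h2 hX
      have h1 := pdv D (k + 2) m.natAbs hDB (Int.natAbs_pos.2 hm0) hmlt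
      refine le_trans ?_ h1.le
      refine Finset.card_le_card_of_injOn (fun v => v.1) ?_ ?_
      · intro v hv
        have hv' := Finset.mem_filter.1 (Finset.mem_coe.1 hv)
        have hv'' := Finset.mem_filter.1 hv'.1
        have h := (hT v).1 hv''.1
        have hd := hS v.1 h.1
        simp only [Finset.coe_filter, Finset.mem_Ioc, Set.mem_ofPred_eq]
        refine ⟨⟨hd.1, hd.2.1⟩, hd.2.2.1, ?_⟩
        rw [← Int.natCast_dvd, ← hv'.2]
        simp only [f]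
        exact Dvd.dvd.mul_right (Dvd.dvd.mul_left (dvd_pow_self _ hk1) _) _
      · intro v hv w hw hvw
        have hv' := Finset.mem_filter.1 (Finset.mem_coe.1 hv)
        have hw' := Finset.mem_filter.1 (Finset.mem_coe.1 hw)
        have hv'' := Finset.mem_filter.1 hv'.1
        have h := (hT v).1 hv''.1
        have hd := hS v.1 h.1
        have h2 : f v = f w := hv'.2.trans hw'.2.symm
        simp only [f] at h2
        have h3 : v.1 = w.1 := hvw
        rw [← h3] at h2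
        have h4 : (k : ℤ) * (v.1 : ℤ) ^ (k - 1) ≠ 0 := by
          have h5 : (v.1 : ℤ) ≠ 0 := by
            have := hd.2.2.1.pos
            positivity
          have h6 : (k : ℤ) ≠ 0 := by positivity
          exact mul_ne_zero h6 (pow_ne_zero _ h5)
        exact Prod.ext h3 (mul_left_cancel₀ h4 h2)
  have hfin : (T.card : ℝ) ≤ (D : ℝ) * (8 * (k : ℝ) + 1) + ((k : ℝ) + 2) * (M.card : ℝ) := by
    have h1 : T.card ≤ D * (8 * k + 1) + (k + 2) * M.card := by omega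
    exact_mod_cast h1
  refine hfin.trans ?_
  have hDR : (D : ℝ) ≤ (q : ℝ) := by exact_mod_cast hDq
  have h1 : (D : ℝ) * (8 * (k : ℝ) + 1) ≤ (q : ℝ) * (8 * (k : ℝ) + 1) :=
    mul_le_mul_of_nonneg_right hDR (by positivity)
  have h2 : ((k : ℝ) + 2) * (M.card : ℝ) ≤ ((k : ℝ) + 2) * (48 * (k : ℝ) * (q : ℝ)) :=
    mul_le_mul_of_nonneg_left hMc (by positivity)
  calc (D : ℝ) * (8 * (k : ℝ) + 1) + ((k : ℝ) + 2) * (M.card : ℝ)
      ≤ (q : ℝ) * (8 * (k : ℝ) + 1) + ((k : ℝ) + 2) * (48 * (k : ℝ) * (q : ℝ)) := add_le_add h1 h2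
    _ = ((8 * (k : ℝ) + 1) + ((k : ℝ) + 2) * (48 * (k : ℝ))) * (q : ℝ) := by ring

end Pool.Agent.VM.H47
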